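import Pool.Agent.N659.HB.Stm3
import Pool.Agent.N712.HB.Int

/-!
# Project KS (helper659), task INT3: integrals of the weight in fixed dimension (helper862)
-/

set_option autoImplicit false

namespace Pool.Agent.N862.KS

open MeasureTheory Filter Pool.Agent.W792.LL Pool.Agent.W792.WA Pool.Agent.N659.HB
open scoped Topology ENNReal

noncomputable section

/-- the number of levels -/
theorem levels3 (d : ℕ) (l : ℝ) (hl : 0 < l) (hl2 : l ≤ 1 / 2) : ∃ J : ℕ,
    4 * (d : ℝ) ≤ 3 * l * 2 ^ J ∧ (J : ℝ) + 1 ≤ (4 * d + 8) * Real.log (1 / l) := by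
  have hl2' : (1 / 2 : ℝ) ≤ Real.log 2 := by
    have := Real.log_two_gt_d9
    linarith
  have h2l : 2 ≤ 1 / l := by
    rw [le_div_iff₀ hl]
    linarith
  have hL : Real.log 2 ≤ Real.log (1 / l) := Real.log_le_log (by norm_num) h2l
  set L := Real.log (1 / l) with hLd
  have hL2 : 1 / 2 ≤ L := hl2'.trans hL
  have hq : 0 ≤ L / Real.log 2 := by positivity
  refine ⟨2 * d + ⌈L / Real.log 2⌉₊, ?_, ?_⟩
  · have h1 : (2 * (d : ℝ)) ≤ 2 ^ (2 * d) := by
      have : 2 * d < 2 ^ (2 * d) := Nat.lt_two_pow_self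
      exact_mod_cast this.le
    have h2 : 1 / l ≤ (2 : ℝ) ^ (⌈L / Real.log 2⌉₊) := by
      have h3 : L / Real.log 2 ≤ ⌈L / Real.log 2⌉₊ := Nat.le_ceil _
      have h4 : L ≤ ⌈L / Real.log 2⌉₊ * Real.log 2 := by
        rwa [div_le_iff₀ (by linarith)] at h3
      have h5 : 0 < 1 / l := by positivity
      rw [← Real.log_le_log_iff h5 (by positivity), Real.log_pow]
      exact h4
    rw [pow_add]
    have h6 : 1 ≤ l * 2 ^ (⌈L / Real.log 2⌉₊) := by
      rw [div_le_iff₀ hl] at h2
      linarith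
    have h7 : (0 : ℝ) ≤ 2 ^ (2 * d) := by positivity
    have h8 : (2 : ℝ) ^ (2 * d) * 1 ≤ 2 ^ (2 * d) * (l * 2 ^ (⌈L / Real.log 2⌉₊)) :=
      mul_le_mul_of_nonneg_left h6 h7
    nlinarith
  · have h3 : (⌈L / Real.log 2⌉₊ : ℝ) < L / Real.log 2 + 1 := Nat.ceil_lt_add_one hq
    have h4 : L / Real.log 2 ≤ 2 * L := by
      rw [div_le_iff₀ (by linarith)]
      nlinarith
    push_cast
    have hd : (0 : ℝ) ≤ d := Nat.cast_nonneg d
    nlinarith

theorem main : S_D3U → S_INT3 := by
  intro H0 d hd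
  obtain ⟨C, hC, H⟩ := H0 d hd
  refine ⟨12 * C * (4 * d + 8), by positivity, ?_⟩
  intro l E hl0 hl1 hE0 hE4
  obtain ⟨J, hJ3, hJ2⟩ := levels3 d l hl0 hl1
  have hdR : (0 : ℝ) ≤ d := Nat.cast_nonneg d
  have hx : ∀ k : UnitAddTorus (Fin d), |lap d k - E| ≤ 3 * l * 2 ^ J := by
    intro k
    obtain ⟨h1, h2⟩ := Pool.Agent.N712.HB.lap_nn d k
    refine le_trans ?_ hJ3
    rw [abs_le]
    constructor <;> linarith
  set A : ℕ → Set (UnitAddTorus (Fin d)) := fun j => {k | |lap d k - E| ≤ 3 * l * 2 ^ j} with hA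
  have hAm : ∀ j, MeasurableSet (A j) := by
    intro j
    refine (isClosed_le ?_ continuous_const).measurableSet
    exact (((lap d).continuous).sub continuous_const).abs
  have hAv : ∀ j, (volume (A j)).toReal ≤ C * (3 * l * 2 ^ j) := fun j =>
    H E (3 * l * 2 ^ j) (by positivity)
  -- the integral of a step function
  have key : ∀ a : ℕ → ℝ, (∀ j, 0 ≤ a j) →
      Integrable (fun k => ∑ j ∈ Finset.range (J + 1), a j * (A j).indicator (fun _ => (1 : ℝ)) k)
        (volume : Measure (UnitAddTorus (Fin d))) ∧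
      (∫ k : UnitAddTorus (Fin d), ∑ j ∈ Finset.range (J + 1),
        a j * (A j).indicator (fun _ => (1 : ℝ)) k) ≤
        ∑ j ∈ Finset.range (J + 1), a j * (C * (3 * l * 2 ^ j)) := by
    intro a ha
    have hi : ∀ j, Integrable (fun k => a j * (A j).indicator (fun _ => (1 : ℝ)) k)
        (volume : Measure (UnitAddTorus (Fin d))) := fun j =>
      ((integrable_const (1 : ℝ)).indicator (hAm j)).const_mul (a j)
    refine ⟨integrable_finset_sum _ fun j _ => hi j, ?_⟩
    rw [integral_finset_sum _ fun j _ => hi j]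
    refine Finset.sum_le_sum fun j _ => ?_
    rw [integral_const_mul]
    refine mul_le_mul_of_nonneg_left ?_ (ha j)
    rw [integral_indicator (hAm j), setIntegral_const, smul_eq_mul, mul_one]
    exact hAv j
  constructor
  · obtain ⟨k1, k2⟩ := key (fun j => 4 / (l * 2 ^ j)) (fun j => by positivity)
    have h1 : (∫ k : UnitAddTorus (Fin d), wl l (lap d k - E)) ≤
        ∫ k : UnitAddTorus (Fin d), ∑ j ∈ Finset.range (J + 1),
          4 / (l * 2 ^ j) * (A j).indicator (fun _ => (1 : ℝ)) k := by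
      refine integral_mono_of_nonneg (Eventually.of_forall fun k => ?_) k1
        (Eventually.of_forall fun k => ?_)
      · obtain ⟨j, _, _, h, _⟩ := Pool.Agent.N712.HB.level l (lap d k - E) hl0 J (hx k)
        exact h
      · obtain ⟨j, hj, hjA, h, h'⟩ := Pool.Agent.N712.HB.level l (lap d k - E) hl0 J (hx k)
        have hs := Finset.single_le_sum
          (f := fun j => 4 / (l * 2 ^ j) * (A j).indicator (fun _ => (1 : ℝ)) k)
          (fun j _ => by
            show 0 ≤ 4 / (l * 2 ^ j) * (A j).indicator (fun _ => (1 : ℝ)) k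
            have : 0 ≤ (A j).indicator (fun _ => (1 : ℝ)) k :=
              Set.indicator_nonneg (fun _ _ => by norm_num) k
            positivity) hj
        have hk : k ∈ A j := hjA
        refine le_trans ?_ hs
        show wl l (lap d k - E) ≤ 4 / (l * 2 ^ j) * (A j).indicator (fun _ => (1 : ℝ)) k
        rw [Set.indicator_of_mem hk, mul_one]
        exact h'
    refine (h1.trans k2).trans ?_
    have e : ∀ j ∈ Finset.range (J + 1), 4 / (l * 2 ^ j) * (C * (3 * l * 2 ^ j)) =
        12 * C := by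
      intro j _
      field_simp
      ring
    rw [Finset.sum_congr rfl e, Finset.sum_const, Finset.card_range, nsmul_eq_mul]
    push_cast
    have := mul_le_mul_of_nonneg_right hJ2 (by positivity : 0 ≤ 12 * C)
    linarith
  · obtain ⟨k1, k2⟩ := key (fun j => (4 / (l * 2 ^ j)) ^ 2) (fun j => by positivity)
    have h1 : (∫ k : UnitAddTorus (Fin d), wl l (lap d k - E) ^ 2) ≤
        ∫ k : UnitAddTorus (Fin d), ∑ j ∈ Finset.range (J + 1),
          (4 / (l * 2 ^ j)) ^ 2 * (A j).indicator (fun _ => (1 : ℝ)) k := by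
      refine integral_mono_of_nonneg (Eventually.of_forall fun k => by positivity) k1
        (Eventually.of_forall fun k => ?_)
      obtain ⟨j, hj, hjA, h, h'⟩ := Pool.Agent.N712.HB.level l (lap d k - E) hl0 J (hx k)
      have hs := Finset.single_le_sum
        (f := fun j => (4 / (l * 2 ^ j)) ^ 2 * (A j).indicator (fun _ => (1 : ℝ)) k)
        (fun j _ => by
          show 0 ≤ (4 / (l * 2 ^ j)) ^ 2 * (A j).indicator (fun _ => (1 : ℝ)) k
          have : 0 ≤ (A j).indicator (fun _ => (1 : ℝ)) k :=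
            Set.indicator_nonneg (fun _ _ => by norm_num) k
          positivity) hj
      have hk : k ∈ A j := hjA
      refine le_trans ?_ hs
      show wl l (lap d k - E) ^ 2 ≤ (4 / (l * 2 ^ j)) ^ 2 * (A j).indicator (fun _ => (1 : ℝ)) k
      rw [Set.indicator_of_mem hk, mul_one]
      exact pow_le_pow_left₀ h h' 2
    refine (h1.trans k2).trans ?_
    have e : ∀ j ∈ Finset.range (J + 1),
        (4 / (l * 2 ^ j)) ^ 2 * (C * (3 * l * 2 ^ j)) =
        48 * C / l * (1 / 2) ^ j := by
      intro j _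
      rw [div_pow (1 : ℝ), one_pow]
      field_simp
      ring
    rw [Finset.sum_congr rfl e, ← Finset.mul_sum]
    have hg : ∑ j ∈ Finset.range (J + 1), (1 / 2 : ℝ) ^ j ≤ 2 :=
      sum_geometric_two_le _
    have hp : 0 ≤ 48 * C / l := by positivity
    refine (mul_le_mul_of_nonneg_left hg hp).trans ?_
    rw [div_mul_eq_mul_div]
    refine div_le_div_of_nonneg_right ?_ (by positivity)
    nlinarith [mul_nonneg hC.le hdR]

end

end Pool.Agent.N862.KS
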