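import Pool.Agent.N659.HB.Stm3

/-!
# Project KS (helper659), task D3L: positive density of states inside the band (helper862)
-/

set_option autoImplicit false

namespace Pool.Agent.N862.KS.D3l

open MeasureTheory Filter Pool.Agent.W792.LL Pool.Agent.W792.WA Pool.Agent.N659.HB
open scoped Topology ENNReal

noncomputable section

/-- one coordinate of the kinetic energy -/
def g (x : UnitAddCircle) : ℝ := 2 - 2 * (fourier 1 x).re

theorem g_coe (t : ℝ) : g (t : UnitAddCircle) = 2 - 2 * Real.cos (2 * Real.pi * t) := by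
  unfold g
  rw [fourier_coe_apply]
  have : (2 * (Real.pi : ℂ) * Complex.I * ((1 : ℤ) : ℂ) * (t : ℂ) / ((1 : ℝ) : ℂ)) =
      ((2 * Real.pi * t : ℝ) : ℂ) * Complex.I := by
    push_cast
    ring
  rw [this, Complex.exp_ofReal_mul_I_re]

theorem g_cont : Continuous g := by
  unfold g
  fun_prop

theorem g_lip (x y : UnitAddCircle) : |g x - g y| ≤ 4 * Real.pi * dist x y := by
  induction x using QuotientAddGroup.induction_on with
  | H a =>
  induction y using QuotientAddGroup.induction_on with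
  | H b =>
  have h1 : dist (a : UnitAddCircle) (b : UnitAddCircle) = |(a - b) - round (a - b)| := by
    rw [dist_eq_norm]
    have : (a : UnitAddCircle) - (b : UnitAddCircle) = ((a - b : ℝ) : UnitAddCircle) := by
      norm_cast
    rw [this, UnitAddCircle.norm_eq]
  change |g (a : UnitAddCircle) - g (b : UnitAddCircle)| ≤
    4 * Real.pi * dist (a : UnitAddCircle) (b : UnitAddCircle)
  rw [h1, g_coe, g_coe]
  have h2 : Real.cos (2 * Real.pi * b) = Real.cos (2 * Real.pi * (b + round (a - b))) := by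
    have : 2 * Real.pi * (b + round (a - b)) =
        2 * Real.pi * b + (round (a - b) : ℤ) * (2 * Real.pi) := by ring
    rw [this, Real.cos_add_int_mul_two_pi]
  rw [h2]
  have h3 := Real.abs_cos_sub_cos_le (2 * Real.pi * (b + round (a - b))) (2 * Real.pi * a)
  have h4 : 2 * Real.pi * (b + round (a - b)) - 2 * Real.pi * a =
      2 * Real.pi * -(a - b - round (a - b)) := by ring
  rw [h4, abs_mul, abs_neg, abs_of_pos (by positivity : 0 < 2 * Real.pi)] at h3
  have h5 : 2 - 2 * Real.cos (2 * Real.pi * a) -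
      (2 - 2 * Real.cos (2 * Real.pi * (b + round (a - b)))) =
      2 * (Real.cos (2 * Real.pi * (b + round (a - b))) - Real.cos (2 * Real.pi * a)) := by ring
  rw [h5, abs_mul, abs_of_pos (by norm_num : (0 : ℝ) < 2)]
  nlinarith

/-- one coordinate -/
theorem one_vol (y ρ : ℝ) (hy0 : 0 ≤ y) (hy4 : y ≤ 4) (hρ : 0 < ρ) (hρ1 : ρ ≤ 1) :
    ENNReal.ofReal (ρ / (2 * Real.pi)) ≤ volume {x : UnitAddCircle | |g x - y| ≤ ρ} := by
  have hpi := Real.pi_gt_three
  obtain ⟨s, hs⟩ : ∃ s : UnitAddCircle, g s = y := by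
    refine ⟨((Real.arccos (1 - y / 2) / (2 * Real.pi) : ℝ) : UnitAddCircle), ?_⟩
    rw [g_coe]
    have : 2 * Real.pi * (Real.arccos (1 - y / 2) / (2 * Real.pi)) = Real.arccos (1 - y / 2) := by
      field_simp
    rw [this, Real.cos_arccos (by linarith) (by linarith)]
    ring
  have hsub : Metric.closedBall s (ρ / (4 * Real.pi)) ⊆ {x : UnitAddCircle | |g x - y| ≤ ρ} := by
    intro x hx
    rw [Metric.mem_closedBall] at hx
    show |g x - y| ≤ ρ
    rw [← hs]
    refine (g_lip x s).trans ?_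
    rw [le_div_iff₀ (by positivity)] at hx
    linarith
  refine le_trans (le_of_eq ?_) (measure_mono hsub)
  rw [AddCircle.volume_closedBall]
  congr 1
  rw [min_eq_right]
  · field_simp
    ring
  · rw [← mul_div_assoc, div_le_iff₀ (by positivity)]
    linarith

theorem main : S_D3L := by
  intro d a₁ a₂ hd ha1 ha2
  obtain ⟨n, rfl⟩ : ∃ n, d = n + 1 := ⟨d - 1, by omega⟩
  have hpi := Real.pi_pos
  have hn1 : (0 : ℝ) < n + 1 := by positivity
  have hn0 : (0 : ℝ) ≤ n := Nat.cast_nonneg n
  push_cast at ha2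
  -- the width
  obtain ⟨δ, hδ0, hδ1, hδa, hδb⟩ : ∃ δ : ℝ, 0 < δ ∧ δ ≤ 1 ∧ n * δ ≤ a₁ / (n + 1) ∧
      n * δ ≤ 4 - a₂ / (n + 1) := by
    have h1 : 0 < a₁ / (n + 1) := by positivity
    have h2 : 0 < 4 - a₂ / (n + 1) := by
      have : a₂ / (n + 1) < 4 := by
        rw [div_lt_iff₀ hn1]
        exact ha2
      linarith
    set m := min (a₁ / ((n : ℝ) + 1)) (4 - a₂ / (n + 1)) with hm
    have hm0 : 0 < m := lt_min h1 h2
    refine ⟨min 1 (m / (n + 1)), lt_min one_pos (by positivity), min_le_left _ _, ?_, ?_⟩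
    · have h3 : (n : ℝ) * min 1 (m / (n + 1)) ≤ n * (m / (n + 1)) :=
        mul_le_mul_of_nonneg_left (min_le_right _ _) hn0
      have h4 : (n : ℝ) * (m / (n + 1)) ≤ m := by
        rw [← mul_div_assoc, div_le_iff₀ hn1]
        nlinarith
      exact (h3.trans h4).trans (min_le_left _ _)
    · have h3 : (n : ℝ) * min 1 (m / (n + 1)) ≤ n * (m / (n + 1)) :=
        mul_le_mul_of_nonneg_left (min_le_right _ _) hn0
      have h4 : (n : ℝ) * (m / (n + 1)) ≤ m := by
        rw [← mul_div_assoc, div_le_iff₀ hn1]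
        nlinarith
      exact (h3.trans h4).trans (min_le_right _ _)
  refine ⟨(δ / (2 * Real.pi)) ^ n / (2 * Real.pi), by positivity, ?_⟩
  intro E ρ hE1 hE2 hρ hρ1
  set e : ℝ := E / (n + 1) with he
  have hEe : E = (n + 1) * e := by
    rw [he]
    field_simp
  have he1 : a₁ / (n + 1) ≤ e := div_le_div_of_nonneg_right hE1 hn1.le
  have he2 : e ≤ a₂ / (n + 1) := div_le_div_of_nonneg_right hE2 hn1.le
  have he0 : 0 ≤ e := le_trans (by positivity) he1
  have he4 : e ≤ 4 := by nlinarith [mul_nonneg hn0 hδ0.le]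
  -- the box
  set B : Set (Fin n → UnitAddCircle) := {k | ∀ i, |g (k i) - e| ≤ δ} with hB
  have hBm : MeasurableSet B := by
    have : B = ⋂ i, {k | |g (k i) - e| ≤ δ} := by
      ext k
      simp [hB]
    rw [this]
    refine MeasurableSet.iInter fun i => (isClosed_le ?_ continuous_const).measurableSet
    exact ((g_cont.comp (continuous_apply i)).sub continuous_const).abs
  have hBv : ENNReal.ofReal ((δ / (2 * Real.pi)) ^ n) ≤ volume B := by
    have h1 : B = Set.pi Set.univ fun _ : Fin n => {x : UnitAddCircle | |g x - e| ≤ δ} := by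
      ext k
      simp [hB]
    rw [h1, volume_pi_pi, Finset.prod_const, Finset.card_univ, Fintype.card_fin,
      ENNReal.ofReal_pow (by positivity)]
    gcongr
    exact one_vol e δ he0 he4 hδ0 hδ1
  -- the set
  set T : Set (UnitAddCircle × (Fin n → UnitAddCircle)) :=
    {p | |g p.1 - (E - ∑ i, g (p.2 i))| ≤ ρ} with hT
  have hTm : MeasurableSet T := by
    refine (isClosed_le ?_ continuous_const).measurableSet
    have h1 : Continuous fun p : UnitAddCircle × (Fin n → UnitAddCircle) => g p.1 :=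
      g_cont.comp continuous_fst
    have h2 : Continuous fun p : UnitAddCircle × (Fin n → UnitAddCircle) => ∑ i, g (p.2 i) :=
      continuous_finsetSum _ fun i _ =>
        g_cont.comp ((continuous_apply i).comp continuous_snd)
    exact (h1.sub (continuous_const.sub h2)).abs
  have hmp := volume_preserving_piFinSuccAbove (fun _ : Fin (n + 1) => UnitAddCircle) 0
  have hset : {k : UnitAddTorus (Fin (n + 1)) | |lap (n + 1) k - E| ≤ ρ} =
      (MeasurableEquiv.piFinSuccAbove (fun _ : Fin (n + 1) => UnitAddCircle) 0) ⁻¹' T := by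
    ext k
    show |(∑ i : Fin (n + 1), (2 - 2 * (fourier 1 (k i)).re)) - E| ≤ ρ ↔
      |g (k 0) - (E - ∑ i : Fin n, g (k i.succ))| ≤ ρ
    rw [Fin.sum_univ_succ]
    have : (2 - 2 * (fourier 1 (k 0)).re + ∑ i : Fin n, (2 - 2 * (fourier 1 (k i.succ)).re)) - E
        = g (k 0) - (E - ∑ i : Fin n, g (k i.succ)) := by
      unfold g
      ring
    rw [this]
  have hv : volume {k : UnitAddTorus (Fin (n + 1)) | |lap (n + 1) k - E| ≤ ρ} =
      (volume.prod volume : Measure (UnitAddCircle × (Fin n → UnitAddCircle))) T := by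
    rw [hset]
    exact hmp.measure_preimage hTm.nullMeasurableSet
  have key : ENNReal.ofReal ((δ / (2 * Real.pi)) ^ n / (2 * Real.pi) * ρ) ≤
      volume {k : UnitAddTorus (Fin (n + 1)) | |lap (n + 1) k - E| ≤ ρ} := by
    rw [hv, Measure.prod_apply_symm hTm]
    have h1 : ENNReal.ofReal ((δ / (2 * Real.pi)) ^ n / (2 * Real.pi) * ρ) ≤
        ∫⁻ k : Fin n → UnitAddCircle, B.indicator
          (fun _ => ENNReal.ofReal (ρ / (2 * Real.pi))) k := by
      rw [lintegral_indicator_const hBm]
      have h2 : (δ / (2 * Real.pi)) ^ n / (2 * Real.pi) * ρ =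
          ρ / (2 * Real.pi) * (δ / (2 * Real.pi)) ^ n := by ring
      rw [h2, ENNReal.ofReal_mul (by positivity)]
      gcongr
    refine h1.trans (lintegral_mono fun k => ?_)
    by_cases hk : k ∈ B
    · rw [Set.indicator_of_mem hk]
      have h3 : |∑ i, (g (k i) - e)| ≤ n * δ := by
        refine (Finset.abs_sum_le_sum_abs _ _).trans ?_
        calc ∑ i, |g (k i) - e| ≤ ∑ _i : Fin n, δ := Finset.sum_le_sum fun i _ => hk i
          _ = n * δ := by
            rw [Finset.sum_const, Finset.card_univ, Fintype.card_fin, nsmul_eq_mul]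
      have h4 : ∑ i, (g (k i) - e) = (∑ i, g (k i)) - n * e := by
        rw [Finset.sum_sub_distrib, Finset.sum_const, Finset.card_univ, Fintype.card_fin,
          nsmul_eq_mul]
      rw [h4] at h3
      have h5 := abs_le.1 h3
      exact one_vol (E - ∑ i, g (k i)) ρ (by nlinarith [h5.1, h5.2]) (by nlinarith [h5.1, h5.2])
        hρ hρ1
    · rw [Set.indicator_of_notMem hk]
      exact bot_le
  show (δ / (2 * Real.pi)) ^ n / (2 * Real.pi) * ρ ≤
    (volume {k : UnitAddTorus (Fin (n + 1)) | |lap (n + 1) k - E| ≤ ρ}).toReal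
  rw [← ENNReal.ofReal_le_iff_le_toReal (measure_ne_top _ _)]
  exact key

end

end Pool.Agent.N862.KS.D3l
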